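import Pool.Agent.Lib.MP_f6aa92_nt.Cert

set_option autoImplicit false

namespace Pool.Agent.Results.MP_f6aa92_nt.ExactDifferences

open Pool.Agent.Lib.MP_f6aa92_nt

/-- The sequence `a 0 = a 1 = a 2 = 1`, `a (n + 3) = a (n + 2) + gcd (a (n + 2)) (a n)`. -/
def a : ℕ → ℕ
  | 0 => 1
  | 1 => 1
  | 2 => 1
  | n + 3 => a (n + 2) + Nat.gcd (a (n + 2)) (a n)

theorem state (n : ℕ) : (step^[n] (0, 0, 1)).2.2 = a n ∧
    a (n + 1) = a n + (step^[n] (0, 0, 1)).1 ∧
    a (n + 2) = a (n + 1) + (step^[n] (0, 0, 1)).2.1 := by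
  induction n with
  | zero => simp [a]
  | succ n ih =>
    obtain ⟨h1, h2, h3⟩ := ih
    rw [Function.iterate_succ_apply']
    generalize step^[n] (0, 0, 1) = s at h1 h2 h3
    obtain ⟨u, v, x⟩ := s
    simp only [step] at h1 h2 h3 ⊢
    refine ⟨by omega, h3, ?_⟩
    show a (n + 3) = a (n + 2) + _
    rw [a, h1, show a (n + 2) = u + v + a n by omega, Nat.gcd_add_self_left]

theorem a_pos (n : ℕ) : 0 < a n := by
  induction n with
  | zero => simp [a]
  | succ n ih => have := (state n).2.1; omega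

theorem a_ge (n : ℕ) : n < a (n + 2) := by
  induction n with
  | zero => simp [a]
  | succ n ih =>
    show n + 1 < a (n + 3)
    have := Nat.gcd_pos_of_pos_right (a (n + 2)) (a_pos n)
    rw [a]
    omega

theorem checkpoint (j : ℕ) : ∃ n, step^[n] (0, 0, 1) = (1, 1, 412 + 840 * j) := by
  classical
  have hex : ∃ n, 412 + 840 * j < a (n + 1) := ⟨412 + 840 * j + 1, a_ge _⟩
  refine ⟨Nat.find hex, ?_⟩
  have h1 := Nat.find_spec hex
  have h2 : a (Nat.find hex) ≤ 412 + 840 * j := by
    rcases h : Nat.find hex with _ | k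
    · simp only [a]; omega
    · exact not_lt.mp (Nat.find_min hex (by omega))
  have h3 := node_iterate (Nat.find hex)
  obtain ⟨h4, h5, -⟩ := state (Nat.find hex)
  generalize step^[Nat.find hex] (0, 0, 1) = s at h3 h4 h5
  obtain ⟨u, v, x⟩ := s
  simp only [nodeOK, Bool.and_eq_true, Bool.not_eq_true', Bool.and_eq_false_imp,
    decide_eq_true_eq, decide_eq_false_iff_not, Bool.or_eq_true, bne_iff_ne, beq_iff_eq,
    List.contains_iff_mem] at h3 h4 h5
  obtain ⟨⟨h6, h7⟩, h8⟩ := h3
  have hu : u ≤ 74 := by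
    have : ∀ d ∈ allowed, d ≤ 74 := by decide
    exact this u h6
  have hx : x = 412 + 840 * j := by omega
  obtain ⟨rfl, rfl⟩ := h8.resolve_left (by omega)
  rw [hx]

/-- The consecutive differences of the sequence are exactly the listed numbers. In particular
`14` and every number above `74` never occur. -/
theorem result (d : ℕ) : (∃ n, a (n + 1) = a n + d) ↔
    d ∈ ({0, 1, 2, 3, 4, 5, 6, 7, 8, 9, 10, 11, 12, 13, 15, 16, 17, 18, 19, 20, 21, 22, 23, 24, 25,
      29, 31, 32, 34, 41, 43, 44, 64, 73, 74} : Finset ℕ) := by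
  have hmem : d ∈ ({0, 1, 2, 3, 4, 5, 6, 7, 8, 9, 10, 11, 12, 13, 15, 16, 17, 18, 19, 20, 21, 22,
      23, 24, 25, 29, 31, 32, 34, 41, 43, 44, 64, 73, 74} : Finset ℕ) ↔ d ∈ allowed := by
    simp only [allowed, Finset.mem_insert, Finset.mem_singleton, List.mem_cons, List.not_mem_nil,
      or_false]
  rw [hmem]
  constructor
  · rintro ⟨n, hn⟩
    have h1 := node_iterate n
    have h2 := (state n).2.1
    simp only [nodeOK, Bool.and_eq_true, List.contains_iff_mem] at h1
    rw [show d = (step^[n] (0, 0, 1)).1 by omega]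
    exact h1.1.1
  · intro hd
    have h1 := List.all_eq_true.mp witnesses d hd
    simp only [Bool.or_eq_true, beq_iff_eq, List.any_eq_true, List.contains_iff_mem] at h1
    rcases h1 with rfl | ⟨j, -, hj⟩
    · exact ⟨0, by simp [a]⟩
    · obtain ⟨n, hn⟩ := checkpoint j
      obtain ⟨i, hi⟩ := hits_sound _ _ _ _ hj
      refine ⟨i + n, ?_⟩
      rw [(state (i + n)).2.1, Function.iterate_add_apply, hn, hi]

end Pool.Agent.Results.MP_f6aa92_nt.ExactDifferences
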